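import Pool.Agent.Y142.ZO.Stm

set_option autoImplicit false

/-!
Project Y142-ZO (owner helper142), tasks `S_LOG`, `S_POW` and `S_EXP`.
-/

open Matrix Polynomial Filter Topology

namespace Pool.Agent.Y497.ZO

open Pool.Agent.Y142.ZO

attribute [local instance] Matrix.normedAddCommGroup Matrix.normedSpace

section norm

variable {ℓ : ℕ} [Fact ℓ.Prime] {N : ℕ}

/-- the matrices -/
abbrev Mt (ℓ N : ℕ) [Fact ℓ.Prime] : Type := Matrix (Fin N) (Fin N) ℚ_[ℓ]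

local instance ultra : IsUltrametricDist (Mt ℓ N) :=
  inferInstanceAs (IsUltrametricDist (Fin N → Fin N → ℚ_[ℓ]))

local instance compl : CompleteSpace (Mt ℓ N) :=
  inferInstanceAs (CompleteSpace (Fin N → Fin N → ℚ_[ℓ]))

lemma nmul (A B : Mt ℓ N) : ‖A * B‖ ≤ ‖A‖ * ‖B‖ := by
  rw [Matrix.norm_le_iff (by positivity)]
  intro i j
  rw [Matrix.mul_apply]
  refine IsUltrametricDist.norm_sum_le_of_forall_le_of_nonneg (by positivity) fun k _ => ?_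
  rw [norm_mul]
  exact mul_le_mul (Matrix.norm_entry_le_entrywise_sup_norm A)
    (Matrix.norm_entry_le_entrywise_sup_norm B) (norm_nonneg _) (norm_nonneg _)

lemma nmulVec (A : Mt ℓ N) (x : Fin N → ℚ_[ℓ]) : ‖A *ᵥ x‖ ≤ ‖A‖ * ‖x‖ := by
  rw [pi_norm_le_iff_of_nonneg (by positivity)]
  intro i
  rw [Matrix.mulVec, dotProduct]
  refine IsUltrametricDist.norm_sum_le_of_forall_le_of_nonneg (by positivity) fun k _ => ?_
  rw [norm_mul]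
  exact mul_le_mul (Matrix.norm_entry_le_entrywise_sup_norm A) (norm_le_pi_norm x k)
    (norm_nonneg _) (norm_nonneg _)

lemma none' : ‖(1 : Mt ℓ N)‖ ≤ 1 := by
  rw [Matrix.norm_le_iff zero_le_one]
  intro i j
  rw [Matrix.one_apply]
  split_ifs <;> simp

lemma npow (A : Mt ℓ N) {ε : ℝ} (h : ‖A‖ ≤ ε) (hε : ε ≤ 1) (k : ℕ) (hk : 1 ≤ k) :
    ‖A ^ k‖ ≤ ε := by
  have h0 : 0 ≤ ε := (norm_nonneg _).trans h
  induction k, hk using Nat.le_induction with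
  | base => simpa using h
  | succ k hk ih =>
    rw [pow_succ]
    calc _ ≤ ‖A ^ k‖ * ‖A‖ := nmul _ _
      _ ≤ ε * 1 := mul_le_mul ih (h.trans hε) (norm_nonneg _) h0
      _ = ε := mul_one _

/-- the binomial formula up to the second order -/
lemma binom {R : Type} [Ring R] (y : R) (n : ℕ) :
    (1 + y) ^ n = 1 + n • y + ∑ m ∈ Finset.range (n - 1), n.choose (m + 2) • y ^ (m + 2) := by
  rcases n with _ | n
  · simp
  rw [add_comm 1 y, (Commute.one_right y).add_pow]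
  simp only [one_pow, mul_one]
  rw [Finset.sum_range_succ', Finset.sum_range_succ']
  simp only [Nat.add_sub_cancel, pow_zero, Nat.choose_zero_right, Nat.cast_one, mul_one, zero_add,
    pow_one, Nat.choose_one_right, nsmul_eq_mul]
  have h : ∀ m, y ^ (m + 1 + 1) * ((n + 1).choose (m + 1 + 1) : R) =
      ((n + 1).choose (m + 2) : R) * y ^ (m + 2) := fun m => Nat.cast_comm _ _ |>.symm
  rw [Finset.sum_congr rfl fun m _ => h m, ← Nat.cast_comm]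
  abel

/-- The `j`-th approximation of the logarithm. -/
noncomputable def Aj (B : Mt ℓ N) (j : ℕ) : Mt ℓ N :=
  ((ℓ : ℚ_[ℓ]) ^ (j + 2))⁻¹ • (B ^ (ℓ ^ j) - 1)

lemma l_ne : (ℓ : ℚ_[ℓ]) ≠ 0 := by
  exact_mod_cast (Fact.out : ℓ.Prime).ne_zero

lemma lR_pos : (0 : ℝ) < (ℓ : ℝ) := by
  exact_mod_cast (Fact.out : ℓ.Prime).pos

lemma pow_eq (B : Mt ℓ N) (j : ℕ) : B ^ (ℓ ^ j) = 1 + (ℓ : ℚ_[ℓ]) ^ (j + 2) • Aj B j := by
  unfold Aj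
  rw [smul_smul, mul_inv_cancel₀ (pow_ne_zero _ l_ne), one_smul]
  abel

lemma norm_l : ‖(ℓ : ℚ_[ℓ])‖ = (ℓ : ℝ)⁻¹ := Padic.norm_p

/-- powers of the powers -/
lemma pow_pow (B : Mt ℓ N) (j n : ℕ) : (B ^ (ℓ ^ j)) ^ n =
    1 + ((n : ℚ_[ℓ]) * (ℓ : ℚ_[ℓ]) ^ (j + 2)) • Aj B j +
      ∑ m ∈ Finset.range (n - 1), ((n.choose (m + 2) : ℚ_[ℓ]) *
        ((ℓ : ℚ_[ℓ]) ^ (j + 2)) ^ (m + 2)) • Aj B j ^ (m + 2) := by
  rw [pow_eq, binom]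
  congr 1
  · rw [mul_smul, Nat.cast_smul_eq_nsmul]
  · refine Finset.sum_congr rfl fun m _ => ?_
    rw [_root_.smul_pow, mul_smul, Nat.cast_smul_eq_nsmul]

lemma step (B : Mt ℓ N) (j : ℕ) : Aj B (j + 1) = Aj B j +
    ∑ m ∈ Finset.range (ℓ - 1), ((ℓ.choose (m + 2) : ℚ_[ℓ]) * (ℓ : ℚ_[ℓ]) ^ (j + 1) *
      ((ℓ : ℚ_[ℓ]) ^ (j + 2)) ^ m) • Aj B j ^ (m + 2) := by
  have h : (ℓ : ℚ_[ℓ]) ^ (j + 3) ≠ 0 := pow_ne_zero _ l_ne
  have h1 : Aj B (j + 1) = ((ℓ : ℚ_[ℓ]) ^ (j + 3))⁻¹ • ((B ^ (ℓ ^ j)) ^ ℓ - 1) := by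
    rw [← pow_mul, ← pow_succ]
    rfl
  rw [h1, pow_pow, add_sub_right_comm, add_sub_cancel_left, smul_add, smul_smul]
  congr 1
  · have : ((ℓ : ℚ_[ℓ]) ^ (j + 3))⁻¹ * ((ℓ : ℚ_[ℓ]) * (ℓ : ℚ_[ℓ]) ^ (j + 2)) = 1 := by
      rw [← pow_succ' (ℓ : ℚ_[ℓ])]
      exact inv_mul_cancel₀ h
    rw [this, one_smul]
  · rw [Finset.smul_sum]
    refine Finset.sum_congr rfl fun m _ => ?_
    rw [smul_smul]
    congr 1
    rw [inv_mul_eq_iff_eq_mul₀ h]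
    ring

lemma l_inv_lt : (ℓ : ℝ)⁻¹ < 1 :=
  inv_lt_one_of_one_lt₀ (by exact_mod_cast (Fact.out : ℓ.Prime).one_lt)

lemma inv_pow_le (k : ℕ) : ((ℓ : ℝ) ^ k)⁻¹ ≤ 1 :=
  inv_le_one_of_one_le₀ (one_le_pow₀ (by exact_mod_cast (Fact.out : ℓ.Prime).one_lt.le))

lemma norm_l_pow (k : ℕ) : ‖(ℓ : ℚ_[ℓ]) ^ k‖ = ((ℓ : ℝ) ^ k)⁻¹ := by
  rw [norm_pow, norm_l, inv_pow]

lemma norm_nat_le (n : ℕ) : ‖(n : ℚ_[ℓ])‖ ≤ 1 := by
  have := Padic.norm_int_le_one (p := ℓ) (n : ℤ)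
  simpa using this

lemma coef_norm (n j m : ℕ) : ‖(n : ℚ_[ℓ]) * (ℓ : ℚ_[ℓ]) ^ (j + 1) *
    ((ℓ : ℚ_[ℓ]) ^ (j + 2)) ^ m‖ ≤ ((ℓ : ℝ) ^ (j + 1))⁻¹ := by
  have h0 : (0 : ℝ) ≤ ((ℓ : ℝ) ^ (j + 1))⁻¹ := by positivity
  rw [norm_mul, norm_mul, norm_l_pow, norm_pow, norm_l_pow]
  have h1 : (((ℓ : ℝ) ^ (j + 2))⁻¹) ^ m ≤ 1 :=
    pow_le_one₀ (by positivity) (inv_pow_le _)
  calc _ ≤ 1 * ((ℓ : ℝ) ^ (j + 1))⁻¹ * 1 :=
        mul_le_mul (mul_le_mul_of_nonneg_right (norm_nat_le n) h0) h1 (by positivity)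
          (by positivity)
    _ = _ := by ring

/-- the estimate for one step -/
lemma step_norm {E : Type} [NormedAddCommGroup E] [NormedSpace ℚ_[ℓ] E] [IsUltrametricDist E]
    (φ : Mt ℓ N →ₗ[ℚ_[ℓ]] E) (B : Mt ℓ N) (j : ℕ)
    (hφ : ∀ k, 1 ≤ k → ‖φ (Aj B j ^ k)‖ ≤ ‖φ (Aj B j)‖) :
    ‖φ (Aj B (j + 1)) - φ (Aj B j)‖ ≤ ((ℓ : ℝ) ^ (j + 1))⁻¹ * ‖φ (Aj B j)‖ := by
  rw [step, map_add, add_sub_cancel_left, map_sum]
  refine IsUltrametricDist.norm_sum_le_of_forall_le_of_nonneg (by positivity) fun m _ => ?_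
  rw [map_smul, norm_smul]
  exact mul_le_mul (coef_norm _ j m) (hφ _ (by omega)) (norm_nonneg _) (by positivity)

lemma bound (B : Mt ℓ N) {ε : ℝ} (hε : ε ≤ 1) (h0 : ‖Aj B 0‖ ≤ ε) (j : ℕ) : ‖Aj B j‖ ≤ ε := by
  induction j with
  | zero => exact h0
  | succ j ih =>
    have h1 := step_norm (LinearMap.id : Mt ℓ N →ₗ[ℚ_[ℓ]] Mt ℓ N) B j
      (fun k hk => npow _ le_rfl (ih.trans hε) k hk)
    simp only [LinearMap.id_apply] at h1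
    have h2 : ‖Aj B (j + 1) - Aj B j‖ ≤ ‖Aj B j‖ :=
      h1.trans (mul_le_of_le_one_left (norm_nonneg _) (inv_pow_le _))
    have h3 : Aj B (j + 1) = (Aj B (j + 1) - Aj B j) + Aj B j := by abel
    rw [h3]
    refine (IsUltrametricDist.norm_add_le_max _ _).trans (max_le (h2.trans ih) ih)

lemma norm_const {E : Type} [NormedAddCommGroup E] [NormedSpace ℚ_[ℓ] E] [IsUltrametricDist E]
    (φ : Mt ℓ N →ₗ[ℚ_[ℓ]] E) {ε : ℝ} (hε : ε ≤ 1)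
    (hφ : ∀ A : Mt ℓ N, ‖A‖ ≤ ε → ∀ k, 1 ≤ k → ‖φ (A ^ k)‖ ≤ ‖φ A‖) (B : Mt ℓ N)
    (h0 : ‖Aj B 0‖ ≤ ε) (j : ℕ) : ‖φ (Aj B j)‖ = ‖φ (Aj B 0)‖ := by
  induction j with
  | zero => rfl
  | succ j ih =>
    rw [← ih]
    have h1 := step_norm φ B j (hφ _ (bound B hε h0 j))
    by_cases h2 : φ (Aj B j) = 0
    · rw [h2] at h1 ⊢
      rw [sub_zero, norm_zero, mul_zero] at h1
      rw [norm_zero]
      exact le_antisymm h1 (norm_nonneg _)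
    · have h3 : 0 < ‖φ (Aj B j)‖ := norm_pos_iff.2 h2
      have h4 : ((ℓ : ℝ) ^ (j + 1))⁻¹ < 1 :=
        inv_lt_one_of_one_lt₀ (one_lt_pow₀ (by exact_mod_cast (Fact.out : ℓ.Prime).one_lt)
          (by omega))
      have h5 : ‖φ (Aj B (j + 1)) + -φ (Aj B j)‖ <
          max ‖φ (Aj B (j + 1))‖ ‖-φ (Aj B j)‖ := by
        rw [← sub_eq_add_neg, norm_neg]
        refine lt_of_lt_of_le (lt_of_le_of_lt h1 ?_) (le_max_right _ _)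
        exact mul_lt_of_lt_one_left h3 h4
      rw [IsUltrametricDist.norm_eq_of_add_norm_lt_max h5, norm_neg]

lemma exists_lim (B : Mt ℓ N) (h0 : ‖Aj B 0‖ ≤ 1) : ∃ A : Mt ℓ N, Tendsto (Aj B) atTop (𝓝 A) := by
  refine cauchySeq_tendsto_of_complete (cauchySeq_of_le_geometric ((ℓ : ℝ)⁻¹) 1 l_inv_lt ?_)
  intro n
  rw [dist_comm, dist_eq_norm]
  have h1 := step_norm (LinearMap.id : Mt ℓ N →ₗ[ℚ_[ℓ]] Mt ℓ N) B n
    (fun k hk => npow _ le_rfl (bound B le_rfl h0 n) k hk)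
  simp only [LinearMap.id_apply] at h1
  refine h1.trans ?_
  have h2 : ((ℓ : ℝ) ^ (n + 1))⁻¹ ≤ ((ℓ : ℝ)⁻¹) ^ n := by
    rw [← inv_pow]
    exact pow_le_pow_of_le_one (by positivity) l_inv_lt.le (by omega)
  calc _ ≤ ((ℓ : ℝ)⁻¹) ^ n * 1 :=
        mul_le_mul h2 (bound B le_rfl h0 n) (norm_nonneg _) (by positivity)
    _ = _ := by ring

lemma norm_lim {E : Type} [NormedAddCommGroup E] [NormedSpace ℚ_[ℓ] E] [IsUltrametricDist E]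
    (φ : Mt ℓ N →ₗ[ℚ_[ℓ]] E) {ε : ℝ} (hε : ε ≤ 1)
    (hφ : ∀ A : Mt ℓ N, ‖A‖ ≤ ε → ∀ k, 1 ≤ k → ‖φ (A ^ k)‖ ≤ ‖φ A‖) (B : Mt ℓ N)
    (h0 : ‖Aj B 0‖ ≤ ε) (A : Mt ℓ N) (hA : Tendsto (Aj B) atTop (𝓝 A)) :
    ‖φ A‖ = ‖φ (Aj B 0)‖ := by
  have hc : Continuous φ := LinearMap.continuous_of_finiteDimensional φ
  have h1 : Tendsto (fun j => ‖φ (Aj B j)‖) atTop (𝓝 ‖φ A‖) :=
    ((hc.tendsto A).comp hA).norm
  refine tendsto_nhds_unique h1 ?_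
  rw [show (fun j => ‖φ (Aj B j)‖) = fun _ => ‖φ (Aj B 0)‖ from
    funext fun j => norm_const φ hε hφ B h0 j]
  exact tendsto_const_nhds

lemma aj_zero (B : Mt ℓ N) {ε : ℝ} (h : ‖B - 1‖ ≤ ((ℓ : ℝ) ^ 2)⁻¹ * ε) : ‖Aj B 0‖ ≤ ε := by
  unfold Aj
  rw [norm_smul, norm_inv, norm_l_pow, inv_inv, pow_zero, pow_one, zero_add]
  have h2 : (0 : ℝ) < (ℓ : ℝ) ^ 2 := pow_pos lR_pos 2
  calc _ ≤ (ℓ : ℝ) ^ 2 * (((ℓ : ℝ) ^ 2)⁻¹ * ε) := mul_le_mul_of_nonneg_left h h2.le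
    _ = ε := by rw [← mul_assoc, mul_inv_cancel₀ h2.ne', one_mul]

lemma aj_tangent {G : Type} [Group G] (ρ : G →* Mt ℓ N) (σ : G) (A : Mt ℓ N)
    (hA : Tendsto (Aj (ρ σ)) atTop (𝓝 A)) : IsTangent ℓ ρ A := by
  refine ⟨fun n => σ ^ (ℓ ^ (n - 2)), ?_⟩
  refine (tendsto_add_atTop_iff_nat (f := fun n : ℕ => ((ℓ : ℚ_[ℓ]) ^ n)⁻¹ •
    (ρ (σ ^ (ℓ ^ (n - 2))) - 1)) 2).1 ?_
  refine hA.congr fun n => ?_
  unfold Aj
  rw [Nat.add_sub_cancel, map_pow]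

/-- evaluation at a vector -/
noncomputable def evv (x : Fin N → ℚ_[ℓ]) : Mt ℓ N →ₗ[ℚ_[ℓ]] (Fin N → ℚ_[ℓ]) where
  toFun A := A *ᵥ x
  map_add' A B := Matrix.add_mulVec A B x
  map_smul' a A := Matrix.smul_mulVec a A x

lemma evv_pow (x : Fin N → ℚ_[ℓ]) (A : Mt ℓ N) (hA : ‖A‖ ≤ 1) (k : ℕ) (hk : 1 ≤ k) :
    ‖evv x (A ^ k)‖ ≤ ‖evv x A‖ := by
  obtain ⟨k, rfl⟩ : ∃ k', k = k' + 1 := ⟨k - 1, by omega⟩
  show ‖(A ^ (k + 1)) *ᵥ x‖ ≤ ‖A *ᵥ x‖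
  rw [pow_succ, ← Matrix.mulVec_mulVec]
  refine (nmulVec _ _).trans ?_
  rcases Nat.eq_zero_or_pos k with rfl | hk0
  · rw [pow_zero]
    exact mul_le_of_le_one_left (norm_nonneg _) none'
  · exact mul_le_of_le_one_left (norm_nonneg _) (npow A hA le_rfl k hk0)

lemma near_iff (A : Mt ℓ N) : Near ℓ A ↔ ‖A - 1‖ ≤ ((ℓ : ℝ) ^ 2)⁻¹ := by
  rw [Matrix.norm_le_iff (by positivity)]
  rfl

theorem log : S_LOG := by
  intro ℓ _ N G _ ρ σ hσ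
  have h0 : ‖Aj (ρ σ) 0‖ ≤ 1 := aj_zero (ρ σ) (by rw [mul_one]; exact (near_iff _).1 hσ)
  have hz : ∀ x, evv x (Aj (ρ σ) 0) = 0 ↔ ρ σ *ᵥ x = x := by
    intro x
    show Aj (ρ σ) 0 *ᵥ x = 0 ↔ _
    unfold Aj
    rw [Matrix.smul_mulVec, smul_eq_zero, pow_zero, pow_one, Matrix.sub_mulVec,
      Matrix.one_mulVec, sub_eq_zero]
    have : ((ℓ : ℚ_[ℓ]) ^ (0 + 2))⁻¹ ≠ 0 := inv_ne_zero (pow_ne_zero _ l_ne)
    simp [this]
  refine ⟨?_, fun n hn x hx => ?_⟩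
  · obtain ⟨A, hA⟩ := exists_lim (ρ σ) h0
    refine ⟨A, aj_tangent ρ σ A hA, fun x => ?_⟩
    have h1 := norm_lim (evv x) le_rfl (fun A hA k hk => evv_pow x A hA k hk) (ρ σ) h0 A hA
    rw [← hz, ← norm_eq_zero, ← norm_eq_zero (a := evv x (Aj (ρ σ) 0)), ← h1]
    rfl
  · rw [← hz, ← norm_eq_zero]
    by_contra hne
    have hpos : 0 < ‖evv x (Aj (ρ σ) 0)‖ := lt_of_le_of_ne (norm_nonneg _) (Ne.symm hne)
    have hn0 : (n : ℚ_[ℓ]) ≠ 0 := by exact_mod_cast hn.ne'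
    have hn1 : 0 < ‖(n : ℚ_[ℓ])‖ := norm_pos_iff.2 hn0
    obtain ⟨j, hj⟩ := exists_pow_lt_of_lt_one hn1 (l_inv_lt (ℓ := ℓ))
    -- the power
    have h1 : (ρ σ ^ (ℓ ^ j)) ^ n *ᵥ x = x := by
      rw [map_pow] at hx
      have h2 : ∀ k : ℕ, (ρ σ ^ n) ^ k *ᵥ x = x := by
        intro k
        induction k with
        | zero => simp
        | succ k ih => rw [pow_succ, ← Matrix.mulVec_mulVec, hx, ih]
      rw [← pow_mul, mul_comm, pow_mul]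
      exact h2 _
    set a := Aj (ρ σ) j with ha
    have h3 : evv x (((n : ℚ_[ℓ]) * (ℓ : ℚ_[ℓ]) ^ (j + 2)) • a) =
        - evv x (∑ m ∈ Finset.range (n - 1), ((n.choose (m + 2) : ℚ_[ℓ]) *
        ((ℓ : ℚ_[ℓ]) ^ (j + 2)) ^ (m + 2)) • a ^ (m + 2)) := by
      rw [pow_pow, Matrix.add_mulVec, Matrix.add_mulVec, Matrix.one_mulVec, add_assoc] at h1
      exact eq_neg_of_add_eq_zero_left (add_eq_left.1 h1)
    have h4 := congrArg norm h3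
    rw [norm_neg, map_smul, norm_smul, norm_mul, norm_l_pow, map_sum] at h4
    have h5 : ‖∑ m ∈ Finset.range (n - 1), evv x (((n.choose (m + 2) : ℚ_[ℓ]) *
        ((ℓ : ℚ_[ℓ]) ^ (j + 2)) ^ (m + 2)) • a ^ (m + 2))‖ ≤
        (((ℓ : ℝ) ^ (j + 2))⁻¹) ^ 2 * ‖evv x a‖ := by
      refine IsUltrametricDist.norm_sum_le_of_forall_le_of_nonneg (by positivity) fun m _ => ?_
      rw [map_smul, norm_smul, norm_mul, norm_pow, norm_l_pow]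
      refine mul_le_mul ?_ (evv_pow x a (bound _ le_rfl h0 j) _ (by omega)) (norm_nonneg _)
        (by positivity)
      have h6 : (((ℓ : ℝ) ^ (j + 2))⁻¹) ^ (m + 2) ≤ (((ℓ : ℝ) ^ (j + 2))⁻¹) ^ 2 :=
        pow_le_pow_of_le_one (by positivity) (inv_pow_le _) (by omega)
      calc _ ≤ 1 * (((ℓ : ℝ) ^ (j + 2))⁻¹) ^ 2 :=
            mul_le_mul (norm_nat_le _) h6 (by positivity) zero_le_one
        _ = _ := one_mul _
    have h7 : ‖evv x a‖ = ‖evv x (Aj (ρ σ) 0)‖ :=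
      norm_const (evv x) le_rfl (fun A hA k hk => evv_pow x A hA k hk) (ρ σ) h0 j
    rw [← h4, h7] at h5
    have h8 : (0 : ℝ) < ((ℓ : ℝ) ^ (j + 2))⁻¹ := inv_pos.2 (pow_pos lR_pos _)
    have h9 : ‖(n : ℚ_[ℓ])‖ ≤ ((ℓ : ℝ) ^ (j + 2))⁻¹ := by
      have h10 : (((ℓ : ℝ) ^ (j + 2))⁻¹ * ‖evv x (Aj (ρ σ) 0)‖) * ‖(n : ℚ_[ℓ])‖ ≤
          (((ℓ : ℝ) ^ (j + 2))⁻¹ * ‖evv x (Aj (ρ σ) 0)‖) * ((ℓ : ℝ) ^ (j + 2))⁻¹ := by
        calc _ = ‖(n : ℚ_[ℓ])‖ * ((ℓ : ℝ) ^ (j + 2))⁻¹ * ‖evv x (Aj (ρ σ) 0)‖ := by ring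
          _ ≤ _ := h5
          _ = _ := by ring
      exact le_of_mul_le_mul_left h10 (mul_pos h8 hpos)
    have h11 : ((ℓ : ℝ) ^ (j + 2))⁻¹ ≤ ((ℓ : ℝ)⁻¹) ^ j := by
      rw [← inv_pow]
      exact pow_le_pow_of_le_one (inv_nonneg.2 lR_pos.le) l_inv_lt.le (by omega)
    linarith

/-- the elements near the identity -/
lemma exists_open (G : Type) [Group G] [TopologicalSpace G] [IsTopologicalGroup G]
    (ρ : G →* Mt ℓ N) (hρ : Continuous ρ) (ε : ℝ) (hε0 : 0 < ε) (hε1 : ε ≤ 1) :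
    ∃ U : Subgroup G, IsOpen (U : Set G) ∧ ∀ σ ∈ U, ‖ρ σ - 1‖ ≤ ε := by
  have hmul : ∀ A B : Mt ℓ N, ‖A - 1‖ ≤ ε → ‖B - 1‖ ≤ ε → ‖A * B - 1‖ ≤ ε := by
    intro A B hA hB
    have h1 : A * B - 1 = (A - 1) * (B - 1) + ((A - 1) + (B - 1)) := by noncomm_ring
    rw [h1]
    refine (IsUltrametricDist.norm_add_le_max _ _).trans (max_le ?_
      ((IsUltrametricDist.norm_add_le_max _ _).trans (max_le hA hB)))
    refine (nmul _ _).trans ?_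
    calc _ ≤ ε * 1 := mul_le_mul hA (hB.trans hε1) (norm_nonneg _) hε0.le
      _ = ε := mul_one _
  let U : Subgroup G :=
    { carrier := {σ | ‖ρ σ - 1‖ ≤ ε ∧ ‖ρ σ⁻¹ - 1‖ ≤ ε}
      mul_mem' := by
        intro a b ha hb
        refine ⟨?_, ?_⟩
        · rw [map_mul]
          exact hmul _ _ ha.1 hb.1
        · rw [_root_.mul_inv_rev, map_mul]
          exact hmul _ _ hb.2 ha.2
      one_mem' := by
        refine ⟨?_, ?_⟩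
        · rw [map_one, sub_self, norm_zero]
          exact hε0.le
        · rw [inv_one, map_one, sub_self, norm_zero]
          exact hε0.le
      inv_mem' := by
        intro a ha
        refine ⟨ha.2, ?_⟩
        rw [inv_inv]
        exact ha.1 }
  have hop : IsOpen {A : Mt ℓ N | ‖A - 1‖ ≤ ε} := by
    have h1 : {A : Mt ℓ N | ‖A - 1‖ ≤ ε} = Metric.closedBall 1 ε := by
      ext A
      rw [Metric.mem_closedBall, dist_eq_norm]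
      rfl
    rw [h1]
    exact IsUltrametricDist.isOpen_closedBall _ hε0.ne'
  refine ⟨U, ?_, fun σ hσ => hσ.1⟩
  have h2 : (U : Set G) = ρ ⁻¹' {A : Mt ℓ N | ‖A - 1‖ ≤ ε} ∩
      (fun σ => ρ σ⁻¹) ⁻¹' {A : Mt ℓ N | ‖A - 1‖ ≤ ε} := rfl
  rw [h2]
  exact (hop.preimage hρ).inter (hop.preimage (hρ.comp continuous_inv))

theorem pow : S_POW := by
  intro ℓ _ N G _ _ _ _ ρ hρ
  refine ⟨?_, fun U hU σ => ?_⟩
  · obtain ⟨U, h1, h2⟩ := exists_open G ρ hρ (((ℓ : ℝ) ^ 2)⁻¹) (inv_pos.2 (pow_pos lR_pos 2))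
      (inv_pow_le 2)
    exact ⟨U, h1, fun σ hσ => (near_iff _).2 (h2 σ hσ)⟩
  · have := Subgroup.quotient_finite_of_isOpen U hU
    obtain ⟨n, hn, -, h⟩ := Subgroup.exists_pow_mem_of_index_ne_zero
      (Subgroup.index_ne_zero_of_finite (H := U)) σ
    exact ⟨n, hn, h⟩

/-! ### task EXP -/

lemma exists_proj (W : Submodule ℚ_[ℓ] (Fin N → ℚ_[ℓ])) :
    ∃ P : Mt ℓ N, (∀ v, P *ᵥ v ∈ W) ∧ ∀ w ∈ W, P *ᵥ w = w := by
  obtain ⟨f, hf⟩ := W.subtype.exists_leftInverse_of_injective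
    (LinearMap.ker_eq_bot.2 Subtype.val_injective)
  refine ⟨LinearMap.toMatrix' (W.subtype ∘ₗ f), fun v => ?_, fun w hw => ?_⟩
  · rw [← Matrix.toLin'_apply, Matrix.toLin'_toMatrix']
    exact (f v).2
  · rw [← Matrix.toLin'_apply, Matrix.toLin'_toMatrix']
    have := LinearMap.congr_fun hf ⟨w, hw⟩
    simp only [LinearMap.comp_apply, Submodule.subtype_apply, LinearMap.id_apply] at this ⊢
    rw [this]

/-- `A ↦ Q * A * P` -/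
noncomputable def cc (Q P : Mt ℓ N) : Mt ℓ N →ₗ[ℚ_[ℓ]] Mt ℓ N where
  toFun A := Q * A * P
  map_add' A B := by rw [mul_add, add_mul]
  map_smul' a A := by rw [RingHom.id_apply, Matrix.mul_smul, Matrix.smul_mul]

lemma cc_pow (P P' : Mt ℓ N) (hPP : ∀ v, P *ᵥ (P' *ᵥ v) = P' *ᵥ v) (C : ℝ) (hC : 1 ≤ C)
    (h1 : ‖P‖ ≤ C) (h2 : ‖P'‖ ≤ C) (h3 : ‖1 - P'‖ ≤ C) (A : Mt ℓ N) (hA : ‖A‖ ≤ (C ^ 2)⁻¹)
    (k : ℕ) (hk : 1 ≤ k) : ‖cc (1 - P') P (A ^ k)‖ ≤ ‖cc (1 - P') P A‖ := by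
  have hC0 : 0 < C := by linarith
  have hCi : (C ^ 2)⁻¹ ≤ 1 := inv_le_one_of_one_le₀ (one_le_pow₀ hC)
  have hP : ∀ Z : Mt ℓ N, P * (P' * Z) = P' * Z := by
    intro Z
    rw [← mul_assoc]
    congr 1
    refine Matrix.toLin'.injective (LinearMap.ext fun v => ?_)
    rw [Matrix.toLin'_apply, Matrix.toLin'_apply, ← Matrix.mulVec_mulVec, hPP]
  induction k, hk using Nat.le_induction with
  | base => rw [pow_one]
  | succ k hk ih =>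
    have e1 : cc (1 - P') P (A ^ (k + 1)) = cc (1 - P') P (A ^ k) * (P' * (A * P)) +
        ((1 - P') * A ^ k) * cc (1 - P') P A := by
      show (1 - P') * A ^ (k + 1) * P = (1 - P') * A ^ k * P * (P' * (A * P)) +
        ((1 - P') * A ^ k) * ((1 - P') * A * P)
      have e2 : (1 - P') * A ^ k * P * (P' * (A * P)) = (1 - P') * A ^ k * (P' * (A * P)) := by
        rw [mul_assoc ((1 - P') * A ^ k), hP]
      rw [e2, pow_succ]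
      noncomm_ring
    rw [e1]
    refine (IsUltrametricDist.norm_add_le_max _ _).trans (max_le ?_ ?_)
    · refine (nmul _ _).trans ?_
      have e3 : ‖P' * (A * P)‖ ≤ 1 := by
        calc _ ≤ ‖P'‖ * ‖A * P‖ := nmul _ _
          _ ≤ C * ((C ^ 2)⁻¹ * C) := mul_le_mul h2 ((nmul _ _).trans (mul_le_mul hA h1
              (norm_nonneg _) (by positivity))) (norm_nonneg _) hC0.le
          _ = 1 := by field_simp
      calc _ ≤ ‖cc (1 - P') P A‖ * 1 := mul_le_mul ih e3 (norm_nonneg _) (norm_nonneg _)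
        _ = _ := mul_one _
    · refine (nmul _ _).trans (mul_le_of_le_one_left (norm_nonneg _) ?_)
      calc _ ≤ ‖1 - P'‖ * ‖A ^ k‖ := nmul _ _
        _ ≤ C * (C ^ 2)⁻¹ := mul_le_mul h3 (npow A hA hCi k hk) (norm_nonneg _) hC0.le
        _ = C⁻¹ := by field_simp
        _ ≤ 1 := inv_le_one_of_one_le₀ hC

theorem exp : S_EXP := by
  intro ℓ _ N G _ _ _ ρ hρ W' W hWW h
  obtain ⟨P, hP1, hP2⟩ := exists_proj W
  obtain ⟨P', hQ1, hQ2⟩ := exists_proj W'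
  set C : ℝ := 1 + ‖P‖ + ‖P'‖ + ‖(1 : Mt ℓ N) - P'‖ with hC
  have n1 := norm_nonneg P
  have n2 := norm_nonneg P'
  have n3 := norm_nonneg ((1 : Mt ℓ N) - P')
  have hC1 : 1 ≤ C := by linarith
  have hC0 : 0 < C := by linarith
  have hCi : (C ^ 2)⁻¹ ≤ 1 := inv_le_one_of_one_le₀ (one_le_pow₀ hC1)
  have hPP : ∀ v, P *ᵥ (P' *ᵥ v) = P' *ᵥ v := fun v => hP2 _ (hWW (hQ1 v))
  have hcc : ∀ A : Mt ℓ N, ‖A‖ ≤ (C ^ 2)⁻¹ → ∀ k, 1 ≤ k →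
      ‖cc (1 - P') P (A ^ k)‖ ≤ ‖cc (1 - P') P A‖ := fun A hA k hk =>
    cc_pow P P' hPP C hC1 (by linarith) (by linarith) (by linarith) A hA k hk
  have hl : (0 : ℝ) < ((ℓ : ℝ) ^ 2)⁻¹ := inv_pos.2 (pow_pos lR_pos 2)
  obtain ⟨U, hU1, hU2⟩ := exists_open G ρ hρ (((ℓ : ℝ) ^ 2)⁻¹ * (C ^ 2)⁻¹)
    (mul_pos hl (by positivity)) (mul_le_one₀ (inv_pow_le 2) (by positivity) hCi)
  refine ⟨U, hU1, fun σ hσ w hw => ?_⟩
  have h0 : ‖Aj (ρ σ) 0‖ ≤ (C ^ 2)⁻¹ := aj_zero _ (hU2 σ hσ)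
  obtain ⟨A, hA⟩ := exists_lim (ρ σ) (h0.trans hCi)
  have h1 := norm_lim (cc (1 - P') P) hCi hcc (ρ σ) h0 A hA
  have h2 : cc (1 - P') P A = 0 := by
    show (1 - P') * A * P = 0
    refine Matrix.toLin'.injective (LinearMap.ext fun v => ?_)
    rw [Matrix.toLin'_apply, map_zero, LinearMap.zero_apply, mul_assoc, ← Matrix.mulVec_mulVec,
      ← Matrix.mulVec_mulVec, Matrix.sub_mulVec, Matrix.one_mulVec,
      hQ2 _ (h A (aj_tangent ρ σ A hA) _ (hP1 v)), sub_self]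
  rw [h2, norm_zero, eq_comm, norm_eq_zero] at h1
  have h3 : (1 - P') * Aj (ρ σ) 0 * P = 0 := h1
  have h4 : ((1 - P') * Aj (ρ σ) 0 * P) *ᵥ w = (0 : Mt ℓ N) *ᵥ w := by rw [h3]
  rw [Matrix.zero_mulVec, mul_assoc, ← Matrix.mulVec_mulVec, ← Matrix.mulVec_mulVec, hP2 w hw,
    Matrix.sub_mulVec, Matrix.one_mulVec, sub_eq_zero] at h4
  have h5 : Aj (ρ σ) 0 *ᵥ w ∈ W' := by
    rw [h4]
    exact hQ1 _
  have h6 : ρ σ *ᵥ w - w = (ℓ : ℚ_[ℓ]) ^ 2 • (Aj (ρ σ) 0 *ᵥ w) := by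
    have h7 := pow_eq (ρ σ) 0
    rw [pow_zero, pow_one, zero_add] at h7
    conv_lhs => rw [h7]
    rw [Matrix.add_mulVec, Matrix.one_mulVec, Matrix.smul_mulVec, add_sub_cancel_left]
  rw [h6]
  exact W'.smul_mem _ h5

end norm

end Pool.Agent.Y497.ZO
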